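import Pool.Agent.R939.EI.Crit
import Pool.Agent.X243.CD.Concl

/-!
Curves `y² = x (x² + a x + b)` over `k(t)` such that `b` and `a² - 4 b` are nonsquare constants times
products of two irreducible polynomials of odd degrees.
-/

set_option autoImplicit false
set_option linter.all false

open WeierstrassCurve WeierstrassCurve.Affine IsDedekindDomain Polynomial
open scoped Classical

namespace Pool.Agent.K9h33.RD

open Pool.Agent.TH115.GD Pool.Agent.X243.CD Pool.Agent.R939.EI
open Pool.Agent.W309.TD (Sq hp SqStable sqStable_of_odd)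

section pol

variable {k : Type} [Field k]

/-- `p` is a nonsquare constant times a product of two different monic separable irreducible
polynomials of odd degree. -/
def OddPair (p : k[X]) : Prop :=
  ∃ (u : k) (p1 p2 : k[X]), ¬ IsSquare u ∧ p1.Monic ∧ p2.Monic ∧ Irreducible p1 ∧ Irreducible p2 ∧
    p1.Separable ∧ p2.Separable ∧ Odd p1.natDegree ∧ Odd p2.natDegree ∧ p1 ≠ p2 ∧
    p = C u * (p1 * p2)

theorem OddPair.ne_zero {p : k[X]} (h : OddPair p) : p ≠ 0 := by
  obtain ⟨u, p1, p2, hu, m1, m2, -, -, -, -, -, -, -, rfl⟩ := h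
  have hu0 : u ≠ 0 := by
    rintro rfl
    exact hu IsSquare.zero
  exact mul_ne_zero (C_ne_zero.2 hu0) (mul_ne_zero m1.ne_zero m2.ne_zero)

theorem OddPair.even {p : k[X]} (h : OddPair p) : Even p.natDegree ∧ ¬ IsSquare p.leadingCoeff := by
  obtain ⟨u, p1, p2, hu, m1, m2, -, -, -, -, o1, o2, -, rfl⟩ := h
  have hu0 : u ≠ 0 := by
    rintro rfl
    exact hu IsSquare.zero
  constructor
  · rw [natDegree_C_mul hu0, m1.natDegree_mul m2]
    exact o1.add_odd o2
  · rw [leadingCoeff_mul, leadingCoeff_C, (m1.mul m2).leadingCoeff, mul_one]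
    exact hu

theorem OddPair.smul {p : k[X]} (h : OddPair p) {c : k} (hc : c ≠ 0) : OddPair (C (c ^ 2) * p) := by
  obtain ⟨u, p1, p2, hu, h2, h3, h4, h5, h6, h7, h8, h9, h10, rfl⟩ := h
  refine ⟨c ^ 2 * u, p1, p2, ?_, h2, h3, h4, h5, h6, h7, h8, h9, h10, ?_⟩
  · rintro ⟨s, hs⟩
    apply hu
    refine ⟨s / c, ?_⟩
    rw [div_mul_div_comm, ← hs, ← pow_two, mul_div_cancel_left₀ _ (pow_ne_zero 2 hc)]
  · rw [C_mul, mul_assoc]

theorem OddPair.sep {p : k[X]} (h : OddPair p) {π : k[X]} (hπ : Irreducible π) (hd : π ∣ p) :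
    π.Separable := by
  obtain ⟨u, p1, p2, hu, m1, m2, i1, i2, s1, s2, -, -, -, rfl⟩ := h
  have hu0 : u ≠ 0 := by
    rintro rfl
    exact hu IsSquare.zero
  have hp := hπ.prime
  rcases hp.dvd_or_dvd hd with h1 | h1
  · exact absurd (isUnit_of_dvd_unit h1 (isUnit_C.2 (isUnit_iff_ne_zero.2 hu0))) hπ.not_isUnit
  · rcases hp.dvd_or_dvd h1 with h2 | h2
    · exact s1.of_dvd h2
    · exact s2.of_dvd h2

/-- The monic squarefree divisors of even degree. -/
theorem OddPair.dvd {p : k[X]} (h : OddPair p) {A : k[X]} (mA : A.Monic) (sA : Squarefree A)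
    (hA : A ∣ p) (he : Even A.natDegree) : A = 1 ∨ ∃ u : k, u ≠ 0 ∧ p = C u * A := by
  obtain ⟨u, p1, p2, hu, m1, m2, i1, i2, s1, s2, o1, o2, hne, rfl⟩ := h
  have hu0 : u ≠ 0 := by
    rintro rfl
    exact hu IsSquare.zero
  have hA' : A ∣ p1 * p2 :=
    (isUnit_C.2 (isUnit_iff_ne_zero.2 hu0)).dvd_mul_left.1 hA
  by_cases h1 : p1 ∣ A
  · obtain ⟨A', rfl⟩ := h1
    have h3 : A' ∣ p2 := (mul_dvd_mul_iff_left m1.ne_zero).1 hA'
    have mA' : A'.Monic := m1.of_mul_monic_left mA
    rcases i2.dvd_iff.1 h3 with h4 | h4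
    · exfalso
      rw [mA'.eq_one_of_isUnit h4, mul_one] at he
      exact (Nat.not_even_iff_odd.2 o1) he
    · right
      rw [eq_of_monic_of_associated m2 mA' h4]
      exact ⟨u, hu0, rfl⟩
  · left
    have hc : IsCoprime A p1 := ((Irreducible.coprime_iff_not_dvd i1).2 h1).symm
    have h3 : A ∣ p2 := hc.dvd_of_dvd_mul_left hA'
    rcases i2.dvd_iff.1 h3 with h4 | h4
    · exact mA.eq_one_of_isUnit h4
    · exfalso
      rw [← eq_of_monic_of_associated m2 mA h4] at he
      exact (Nat.not_even_iff_odd.2 o2) he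

/-- Values of `x² - d y²`. -/
theorem even_norm {d : k[X]} (hd : Even d.natDegree) (hl : ¬ IsSquare d.leadingCoeff) (x y : k[X]) :
    Even (x ^ 2 - d * y ^ 2).natDegree := by
  have hd0 : d ≠ 0 := by
    rintro rfl
    exact hl (by rw [leadingCoeff_zero]; exact IsSquare.zero)
  by_cases hy : y = 0
  · rw [hy]
    simp only [ne_eq, OfNat.ofNat_ne_zero, not_false_eq_true, zero_pow, mul_zero, sub_zero,
      natDegree_pow]
    exact even_two_mul _
  have hdy : (d * y ^ 2).natDegree = d.natDegree + 2 * y.natDegree := by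
    rw [natDegree_mul hd0 (pow_ne_zero 2 hy), natDegree_pow]
  have hedy : Even (d * y ^ 2).natDegree := by
    rw [hdy]
    exact hd.add (even_two_mul _)
  have hex : Even (x ^ 2).natDegree := by
    rw [natDegree_pow]
    exact even_two_mul _
  rcases lt_trichotomy (x ^ 2).natDegree (d * y ^ 2).natDegree with h | h | h
  · rw [natDegree_sub_eq_right_of_natDegree_lt h]
    exact hedy
  · have hlc : (x ^ 2 - d * y ^ 2).coeff (x ^ 2).natDegree ≠ 0 := by
      rw [coeff_sub]
      have e1 : (x ^ 2).coeff (x ^ 2).natDegree = x.leadingCoeff ^ 2 := by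
        rw [← leadingCoeff, leadingCoeff_pow]
      have e2 : (d * y ^ 2).coeff (x ^ 2).natDegree = d.leadingCoeff * y.leadingCoeff ^ 2 := by
        rw [h, ← leadingCoeff, leadingCoeff_mul, leadingCoeff_pow]
      rw [e1, e2]
      intro h0
      apply hl
      have hy0 : y.leadingCoeff ≠ 0 := leadingCoeff_ne_zero.2 hy
      refine ⟨x.leadingCoeff / y.leadingCoeff, ?_⟩
      rw [div_mul_div_comm, eq_div_iff (mul_ne_zero hy0 hy0)]
      linear_combination (-1 : k) * h0
    have h1 : (x ^ 2).natDegree ≤ (x ^ 2 - d * y ^ 2).natDegree := le_natDegree_of_ne_zero hlc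
    have h2 : (x ^ 2 - d * y ^ 2).natDegree ≤ (x ^ 2).natDegree := by
      refine (natDegree_sub_le _ _).trans ?_
      rw [← h, max_self]
    rw [le_antisymm h2 h1]
    exact hex
  · rw [natDegree_sub_eq_left_of_natDegree_lt h]
    exact hex

/-- Only divisors of even degree are norms. -/
theorem even_of_norm {d : k[X]} (hd : Even d.natDegree) (hl : ¬ IsSquare d.leadingCoeff) {A : k[X]}
    (mA : A.Monic) {ε : k} (hε : ε ≠ 0) {x y z : k[X]} (hz : z ≠ 0)
    (h : C ε * A * z ^ 2 = x ^ 2 - d * y ^ 2) : Even A.natDegree := by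
  have h1 := even_norm hd hl x y
  rw [← h, mul_assoc, natDegree_C_mul hε, natDegree_mul mA.ne_zero (pow_ne_zero 2 hz),
    natDegree_pow] at h1
  exact (Nat.even_add.1 h1).2 (even_two_mul _)

theorem OddPair.notNorm {p : k[X]} (h : OddPair p) : NotNorm p := by
  obtain ⟨w, p1, p2, hw, m1, m2, i1, i2, s1, s2, o1, o2, hne, e⟩ := h
  have hw0 : w ≠ 0 := by
    rintro rfl
    exact hw IsSquare.zero
  -- no irreducible square divides `p`
  have hsq : ¬ p1 ^ 2 ∣ p := by
    rw [e]
    intro h1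
    have h2 : p1 ^ 2 ∣ p1 * p2 := (isUnit_C.2 (isUnit_iff_ne_zero.2 hw0)).dvd_mul_left.1 h1
    rw [pow_two, mul_dvd_mul_iff_left m1.ne_zero] at h2
    rcases i2.dvd_iff.1 h2 with h4 | h4
    · exact i1.not_isUnit h4
    · exact hne (eq_of_monic_of_associated m2 m1 h4).symm
  have hst : SqStable p1 := sqStable_of_odd i1 o1
  intro u D U V huv
  have hp0 : p ≠ 0 := by
    rw [e]
    exact mul_ne_zero (C_ne_zero.2 hw0) (mul_ne_zero m1.ne_zero m2.ne_zero)
  have hu0 : u ≠ 0 := by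
    rintro rfl
    apply hp0
    rw [huv, C_0, zero_mul]
  have hd1 : p1 ∣ U ^ 2 - C D * V ^ 2 := by
    have h1 : p1 ∣ p := by rw [e]; exact ⟨C w * p2, by ring⟩
    rw [huv] at h1
    exact (isUnit_C.2 (isUnit_iff_ne_zero.2 hu0)).dvd_mul_left.1 h1
  have key : ¬ p1 ∣ V := by
    intro hV
    obtain ⟨V', rfl⟩ := hV
    have hU : p1 ∣ U ^ 2 := by
      have h3 : U ^ 2 = (U ^ 2 - C D * (p1 * V') ^ 2) + p1 * (C D * p1 * V' ^ 2) := by ring
      rw [h3]
      exact dvd_add hd1 (dvd_mul_right _ _)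
    obtain ⟨U', rfl⟩ := i1.prime.dvd_of_dvd_pow hU
    apply hsq
    rw [huv]
    exact ⟨C u * (U' ^ 2 - C D * V' ^ 2), by ring⟩
  refine ⟨?_, ?_⟩
  · rintro rfl
    exact key (dvd_zero _)
  · apply hst
    -- `V` is invertible modulo `p1`
    obtain ⟨s, t, hst'⟩ : IsCoprime p1 V := (Irreducible.coprime_iff_not_dvd i1).2 key
    refine ⟨U * t, ?_⟩
    obtain ⟨r, hr⟩ := hd1
    refine ⟨C D * s * (1 + t * V) - r * t ^ 2, ?_⟩
    have h5 : t * V = 1 - s * p1 := by rw [← hst']; ring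
    linear_combination (-(t ^ 2)) * hr - (C D * (1 + t * V)) * h5

end pol

section desc

variable {k K : Type} [Field k] [Field K] [Algebra k[X] K] [IsFractionRing k[X] K]

/-- The point `0` and the point `(0, 0)`. -/
def ZT (a : K) {b : K} (hb : b ≠ 0) : Set (Pt (crvT a b) K) :=
  {P | P = 0 ∨ P = Point.some 0 0 (nonsing_T a hb)}

theorem ZT_dbl (a : K) {b : K} (hb : b ≠ 0) {P : Pt (crvT a b) K} (hP : P ∈ ZT a hb) :
    P + P = 0 := by
  rcases hP with rfl | rfl
  · exact add_zero 0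
  · exact dbl_T a hb

theorem complete {a b : k[X]} (hb : OddPair b) (hbK : algebraMap k[X] K b ≠ 0) :
    CompleteIn K a b (fun A => Even A.natDegree) (ZT (algebraMap k[X] K a) hbK) := by
  intro A mA sA hA he
  rcases hb.dvd mA sA hA he with rfl | ⟨u, hu, e⟩
  · refine ⟨0, Or.inl rfl, 1, 1, one_ne_zero, one_ne_zero, ?_⟩
    have : dT (algebraMap k[X] K b) (0 : Pt (crvT (algebraMap k[X] K a) (algebraMap k[X] K b)) K) = 1 :=
      rfl
    rw [this, C_1, mul_one, map_one, one_pow, mul_one]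
  · refine ⟨_, Or.inr rfl, u, 1, hu, one_ne_zero, ?_⟩
    simp only [dT, if_true]
    rw [← e, one_pow, one_mul]

/-- The core of the descent over `K` itself. -/
theorem coreK {a b : k[X]} (h2 : (2 : k) ≠ 0) (hb : OddPair b) (hd : OddPair (a ^ 2 - 4 * b))
    (hbK : algebraMap k[X] K b ≠ 0) {e : K} (he : e ≠ 0)
    (h : LocZ (algebraMap k[X] K a) (algebraMap k[X] K b) K e) :
    ∃ (P : Pt (crvT (algebraMap k[X] K a) (algebraMap k[X] K b)) K) (c : K),
      P ∈ ZT (algebraMap k[X] K a) hbK ∧ c ≠ 0 ∧ e = c ^ 2 * dT (algebraMap k[X] K b) P := by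
  have inj := IsFractionRing.injective k[X] K
  have h2K : (2 : K) ≠ 0 := tt h2
  have hd0 := hd.ne_zero
  have hdK : (algebraMap k[X] K a) ^ 2 - 4 * algebraMap k[X] K b ≠ 0 := by
    rw [← emap', Ne, map_eq_zero_iff _ inj]
    exact hd0
  obtain ⟨w, d1, d2, hw, m1, m2, i1, i2, s1, s2, o1, o2, hne, ed⟩ := id hd
  have hw0 : w ≠ 0 := by
    rintro rfl
    exact hw IsSquare.zero
  -- the place `d1`
  have ho : ¬ IsSquare ((hp d1 i1).valuation K (algebraMap k[X] K (a ^ 2 - 4 * b))) := by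
    have h3 : ¬ d1 ∣ C w * d2 := by
      intro h1
      have h4 := (isUnit_C.2 (isUnit_iff_ne_zero.2 hw0)).dvd_mul_left.1 h1
      rcases i2.dvd_iff.1 h4 with h5 | h5
      · exact i1.not_isUnit h5
      · exact hne (eq_of_monic_of_associated m2 m1 h5).symm
    rw [ed, show C w * (d1 * d2) = (C w * d2) * d1 by ring, map_mul, map_mul, hp_one i1 h3, one_mul]
    exact hp_ns i1
  have hok := locOK_glob (I := fun _ => True) h2 hb.ne_zero hd0 (fun _ _ => trivial) i1 ho he h
  refine coreIn h2 hb.ne_zero hd0 (complete hb hbK) i1 (sqStable_of_odd i1 o1) he hok.even ?_ hok.norm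
  intro A c h' mA hc hh eA
  -- `e` is a norm
  obtain ⟨c', z, hc', ez, hz⟩ := h
  have e1 : e = c' ^ 2 * z := ez
  have hn : Nm ((algebraMap k[X] K a) ^ 2 - 4 * algebraMap k[X] K b) e := by
    rw [e1]
    exact (Nm.sq _ c').mul (zc_nm h2K hdK hz)
  obtain ⟨s, r, hsr⟩ := hn
  obtain ⟨x, y, z', hz', hxyz⟩ := splits_of_frac (K := K) (d := a ^ 2 - 4 * b) (ε := c) (A := A)
    (p := s) (q := r) (w := h') hh (by
      rw [← eA, hsr, emap'])
  exact even_of_norm hd.even.1 hd.even.2 mA hc hz' hxyz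

theorem dual_pair {a b : k[X]} (h2 : (2 : k) ≠ 0) (hb : OddPair b) :
    OddPair ((-2 * a) ^ 2 - 4 * (a ^ 2 - 4 * b)) := by
  have e16 : (-2 * a) ^ 2 - 4 * (a ^ 2 - 4 * b) = C ((4 : k) ^ 2) * b := by
    have e : (C ((4 : k) ^ 2) : k[X]) = 16 := by
      rw [show ((4 : k) ^ 2) = 16 by norm_num, map_ofNat]
    rw [e]
    ring
  rw [e16]
  refine hb.smul ?_
  rw [show (4 : k) = 2 * 2 by norm_num]
  exact mul_ne_zero h2 h2

open Pool.Agent.W309 in
/-- Every point over `K = k(t)` is the double of a point plus a point of order two. -/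
theorem points_complete {a b : k[X]} (h2 : (2 : k) ≠ 0) (hb : OddPair b)
    (hd : OddPair (a ^ 2 - 4 * b)) :
    Sha.PointsComplete (crvT (algebraMap k[X] K a) (algebraMap k[X] K b)) := by
  have inj := IsFractionRing.injective k[X] K
  have h2K : (2 : K) ≠ 0 := tt h2
  have hbK : algebraMap k[X] K b ≠ 0 := by
    rw [Ne, map_eq_zero_iff _ inj]
    exact hb.ne_zero
  have hdK' : algebraMap k[X] K (a ^ 2 - 4 * b) ≠ 0 := by
    rw [Ne, map_eq_zero_iff _ inj]
    exact hd.ne_zero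
  have hdK : (algebraMap k[X] K a) ^ 2 - 4 * algebraMap k[X] K b ≠ 0 := by
    rw [← emap']
    exact hdK'
  obtain ⟨α, β, hR⟩ := exists_roots (Ω := SeparableClosure K) h2K hbK hdK
  have g0 : Glob0 (fun _ : Unit => K) (algebraMap k[X] K a) (algebraMap k[X] K b)
      (ZT (algebraMap k[X] K a) hbK) := by
    intro a0 ha0 hloc
    exact coreK h2 hb hd hbK ha0 (locz0 hbK (hloc ()))
  have g1 : Glob1 (fun _ : Unit => K) (algebraMap k[X] K a) (algebraMap k[X] K b) := by
    intro a1 ha1 hloc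
    obtain ⟨P, c, hP, hc, e⟩ := coreK h2 (a := -2 * a) hd (dual_pair h2 hb) hdK' ha1 (by
      have h3 := locz1 (hloc ())
      have e1 : algebraMap k[X] K (-2 * a) = -2 * algebraMap k[X] K a := by
        simp only [map_mul, map_neg, map_ofNat]
      rw [e1, emap']
      exact h3)
    refine ⟨c, hc, ?_⟩
    rcases hP with rfl | rfl
    · left
      rw [e]
      have : dT (algebraMap k[X] K (a ^ 2 - 4 * b)) (0 : Pt (crvT (algebraMap k[X] K (-2 * a))
        (algebraMap k[X] K (a ^ 2 - 4 * b))) K) = 1 := rfl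
      rw [this, mul_one]
    · right
      rw [e, ← emap']
      simp only [dT, if_true]
  have hD := descT (Ω' := fun _ : Unit => SeparableClosure K) (F := fun _ : Unit => K) hR g0 g1
  intro P0
  obtain ⟨Q, P, hP, h⟩ := points (W := crvT (algebraMap k[X] K a) (algebraMap k[X] K b))
    (Ω := SeparableClosure K) (F := fun _ : Unit => K) (Ω' := fun _ : Unit => SeparableClosure K)
    (halve_sep hR.E) hD P0
  exact ⟨Q, P, ZT_dbl _ hbK hP, h⟩

end desc

section tate

variable {k k' K F : Type} [Field k] [Field k'] [Algebra k k'] [Field K] [Algebra k[X] K]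
    [Field F] [Algebra k'[X] F] [IsFractionRing k'[X] F] [Algebra K F]

theorem points_norms (hT : IsTower k k' K F) (h2 : (2 : k) ≠ 0) {a b : k[X]} (hb : OddPair b)
    (hd : OddPair (a ^ 2 - 4 * b)) : PointsForNorms K F a b := by
  haveI := hT.sep
  haveI := hT.fracK
  haveI : IsSepClosed k' := IsSepClosure.sep_closed k
  have inj := IsFractionRing.injective k[X] K
  have hbK : algebraMap k[X] K b ≠ 0 := by
    rw [Ne, map_eq_zero_iff _ inj]
    exact hb.ne_zero
  rintro A mA sA hA - ⟨ε, hε, ⟨x, y, z, hz, e⟩, -⟩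
  have hev := even_of_norm hd.even.1 hd.even.2 mA hε hz e
  rcases hb.dvd mA sA hA hev with rfl | ⟨u, hu, e⟩
  · refine ⟨0, 1, one_ne_zero, ?_⟩
    have : dT (algebraMap k[X] K b) (0 : Pt (crvT (algebraMap k[X] K a) (algebraMap k[X] K b)) K) = 1 :=
      rfl
    rw [this, map_one, map_one, one_pow, mul_one]
  · haveI : NeZero ((2 : ℕ) : k') := ⟨by
      have : ((2 : ℕ) : k') = algebraMap k k' 2 := by rw [map_ofNat]; norm_num
      rw [this]
      exact (map_ne_zero_iff _ (algebraMap k k').injective).2 h2⟩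
    obtain ⟨s, hs⟩ := IsSepClosed.exists_pow_nat_eq (algebraMap k k' u⁻¹) 2
    have hs0 : s ≠ 0 := by
      rintro rfl
      rw [zero_pow two_ne_zero] at hs
      exact (map_ne_zero_iff _ (algebraMap k k').injective).2 (inv_ne_zero hu) hs.symm
    have hsF : algebraMap k'[X] F (C s) ≠ 0 := by
      rw [Ne, map_eq_zero_iff _ (IsFractionRing.injective k'[X] F), C_eq_zero]
      exact hs0
    refine ⟨Point.some 0 0 (nonsing_T _ hbK), algebraMap k'[X] F (C s), hsF, ?_⟩
    simp only [dT, if_true]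
    have e1 : algebraMap K F (algebraMap k[X] K (C u⁻¹)) = algebraMap k'[X] F (C s) ^ 2 := by
      rw [hT.map, map_C, ← map_pow, ← C_pow, hs]
    have e2 : A = C u⁻¹ * b := by
      rw [e, ← mul_assoc, ← C_mul, inv_mul_cancel₀ hu, C_1, one_mul]
    rw [e2, map_mul, map_mul, e1]

theorem tate (hT : IsTower k k' K F) (h2 : (2 : k) ≠ 0) {a b : k[X]} (hb : OddPair b)
    (hd : OddPair (a ^ 2 - 4 * b)) :
    TateAtTwo (F := F) k' (crvT (algebraMap k[X] K a) (algebraMap k[X] K b)) := by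
  refine criterion hT h2 hb.ne_zero hd.ne_zero ?_ hb.notNorm hd.notNorm (points_norms hT h2 hb hd)
    (points_norms hT h2 hd (dual_pair h2 hb))
  intro π hπ hd'
  rcases hπ.prime.dvd_or_dvd hd' with h | h
  · exact hb.sep hπ h
  · exact hd.sep hπ h

end tate

end Pool.Agent.K9h33.RD
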