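import Pool.Agent.K9h33.RD.Pt
import Pool.Agent.N181.P8.Deg
import Pool.Agent.N601.PB.Hom
import Pool.Agent.X243.Gen.Main

/-!
Extensions of the constants; infinitely many reductions.
-/

set_option autoImplicit false
set_option linter.all false

open Polynomial WeierstrassCurve WeierstrassCurve.Affine
open scoped Classical

namespace Pool.Agent.K9h33.RD

open Pool.Agent.TH115.GD Pool.Agent.Y160.T3 Pool.Agent.X243.Tate Pool.Agent.X243.Gen
open Pool.Agent.W309

section ext

variable {F L : Type} [Field F] [Field L] [Algebra F L] [FiniteDimensional F L]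

theorem nonsq_ext {u : F} (hu : ¬ IsSquare u) (h : Nat.Coprime 2 (Module.finrank F L)) :
    ¬ IsSquare (algebraMap F L u) := by
  have hirr : Irreducible (X ^ 2 - C u : F[X]) := by
    apply X_pow_sub_C_irreducible_of_prime Nat.prime_two
    intro b hb
    exact hu ⟨b, by rw [← hb, pow_two]⟩
  have h1 := Pool.Agent.N181.P8.irr_of_coprime (M := L) hirr (by
    rw [natDegree_X_pow_sub_C]
    exact h)
  rintro ⟨s, hs⟩
  rw [Polynomial.map_sub, Polynomial.map_pow, map_X, map_C, hs] at h1
  have e : (X ^ 2 - C (s * s) : L[X]) = (X - C s) * (X + C s) := by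
    rw [C_mul]; ring
  rw [e] at h1
  rcases h1.isUnit_or_isUnit rfl with h2 | h2
  · exact not_isUnit_X_sub_C s h2
  · have h3 : (X + C s : L[X]) = X - C (-s) := by rw [C_neg, sub_neg_eq_add]
    rw [h3] at h2
    exact not_isUnit_X_sub_C (-s) h2

theorem PairDeg.ext {e f : ℕ} {p : F[X]} (h : PairDeg e f p)
    (h2 : Nat.Coprime 2 (Module.finrank F L)) (he : Nat.Coprime e (Module.finrank F L))
    (hf : Nat.Coprime f (Module.finrank F L)) : PairDeg e f (p.map (algebraMap F L)) := by
  obtain ⟨u, p1, p2, hu, m1, m2, i1, i2, d1, d2, rfl⟩ := h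
  refine ⟨algebraMap F L u, p1.map _, p2.map _, nonsq_ext hu h2, m1.map _, m2.map _,
    Pool.Agent.N181.P8.irr_of_coprime i1 (by rw [d1]; exact he),
    Pool.Agent.N181.P8.irr_of_coprime i2 (by rw [d2]; exact hf), by rw [natDegree_map, d1],
    by rw [natDegree_map, d2], ?_⟩
  rw [Polynomial.map_mul, Polynomial.map_mul, map_C]

end ext

theorem PairDeg.natDegree {F : Type} [Field F] {e f : ℕ} {p : F[X]} (h : PairDeg e f p) :
    p.natDegree = e + f := by
  obtain ⟨u, p1, p2, hu, m1, m2, i1, i2, d1, d2, rfl⟩ := h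
  have hu0 : u ≠ 0 := by
    rintro rfl
    exact hu IsSquare.zero
  rw [natDegree_C_mul hu0, m1.natDegree_mul m2, d1, d2]

theorem cop_of_deg {F : Type} [Field F] {p q : F[X]} (mp : p.Monic) (mq : q.Monic)
    (ip : Irreducible p) (iq : Irreducible q) (h : p.natDegree ≠ q.natDegree) : IsCoprime p q := by
  rw [Irreducible.coprime_iff_not_dvd ip]
  intro hd
  apply h
  rw [eq_of_monic_of_associated mp mq (ip.associated_of_dvd iq hd)]

theorem PairDeg.sqf {F : Type} [Field F] [Finite F] {e f e' f' : ℕ} {p q : F[X]}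
    (hp : PairDeg e f p) (hq : PairDeg e' f' q) (h1 : e ≠ f) (h2 : e' ≠ f') (h3 : e ≠ e')
    (h4 : e ≠ f') (h5 : f ≠ e') (h6 : f ≠ f') : Squarefree (p * q) := by
  obtain ⟨u, p1, p2, hu, m1, m2, i1, i2, d1, d2, rfl⟩ := hp
  obtain ⟨v, q1, q2, hv, n1, n2, j1, j2, e1, e2, rfl⟩ := hq
  have hu0 : u ≠ 0 := by
    rintro rfl
    exact hu IsSquare.zero
  have hv0 : v ≠ 0 := by
    rintro rfl
    exact hv IsSquare.zero
  have s1 := PerfectField.separable_of_irreducible i1
  have s2 := PerfectField.separable_of_irreducible i2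
  have t1 := PerfectField.separable_of_irreducible j1
  have t2 := PerfectField.separable_of_irreducible j2
  have c1 := cop_of_deg m1 m2 i1 i2 (by rw [d1, d2]; exact h1)
  have c2 := cop_of_deg n1 n2 j1 j2 (by rw [e1, e2]; exact h2)
  have c3 := cop_of_deg m1 n1 i1 j1 (by rw [d1, e1]; exact h3)
  have c4 := cop_of_deg m1 n2 i1 j2 (by rw [d1, e2]; exact h4)
  have c5 := cop_of_deg m2 n1 i2 j1 (by rw [d2, e1]; exact h5)
  have c6 := cop_of_deg m2 n2 i2 j2 (by rw [d2, e2]; exact h6)
  have hs : ((p1 * p2) * (q1 * q2)).Separable :=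
    (s1.mul s2 c1).mul (t1.mul t2 c2) ((c3.mul_right c4).mul_left (c5.mul_right c6))
  have e : C u * (p1 * p2) * (C v * (q1 * q2)) = C (u * v) * ((p1 * p2) * (q1 * q2)) := by
    rw [C_mul]; ring
  rw [e]
  have hsq := hs.squarefree
  have hun : IsUnit (C (u * v) : F[X]) := isUnit_C.2 (isUnit_iff_ne_zero.2 (mul_ne_zero hu0 hv0))
  intro x hx
  exact hsq x (hun.dvd_mul_left.1 hx)

/-- A group which is finitely generated and equal to the doubles plus the points of order two is
finite. -/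
theorem finite_of_complete {A : Type} [AddCommGroup A] (h : ∀ P : A, ∃ Q T : A, T + T = 0 ∧
    P = Q + Q + T) (hfg : AddGroup.FG A) : Finite A := by
  let H : AddSubgroup A :=
    { carrier := {T | T + T = 0}
      zero_mem' := add_zero 0
      add_mem' := fun {x y} hx hy => by
        show x + y + (x + y) = 0
        rw [add_add_add_comm, show x + x = 0 from hx, show y + y = 0 from hy, add_zero]
      neg_mem' := fun {x} hx => by
        show -x + -x = 0
        rw [← neg_add, show x + x = 0 from hx, neg_zero] }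
  obtain ⟨r, hr, hr'⟩ := Pool.Agent.N601.PB.odd_exponent H hfg (fun P => by
    obtain ⟨Q, T, hT, e⟩ := h P
    exact ⟨Q, T, hT, e⟩)
  have htor : IsAddTorsion A := by
    intro P
    rw [isOfFinAddOrder_iff_nsmul_eq_zero]
    refine ⟨2 * r, Nat.mul_pos two_pos hr.pos, ?_⟩
    have h3 : r • P + r • P = 0 := hr' P
    rw [two_mul, add_nsmul, h3]
  have : AddGroup.FG A := hfg
  exact AddCommGroup.finite_of_fg_isAddTorsion A htor

/-- All the conclusions for the twist by the constant `c`. -/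
theorem holds {L L' K F : Type} [Field L] [Finite L] [Field L']
    [Algebra L L'] [Field K] [Algebra L[X] K] [IsFractionRing L[X] K] [Field F] [Algebra L'[X] F]
    [IsFractionRing L'[X] F] [Algebra K F] (hT : IsTower L L' K F) (h2 : (2 : L) ≠ 0) {a b : L[X]}
    (hb : OddPair b) (hd : OddPair (a ^ 2 - 4 * b)) {c : L} (hc : c ≠ 0) :
    TateAtTwo (F := F) L' (crvT (algebraMap L[X] K (C c * a)) (algebraMap L[X] K (C (c ^ 2) * b))) ∧
    Sha.PointsComplete (crvT (algebraMap L[X] K (C c * a)) (algebraMap L[X] K (C (c ^ 2) * b))) := by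
  have hb' := hb.smul hc
  have e : (C c * a) ^ 2 - 4 * (C (c ^ 2) * b) = C (c ^ 2) * (a ^ 2 - 4 * b) := by
    rw [C_pow]; ring
  have hd' : OddPair ((C c * a) ^ 2 - 4 * (C (c ^ 2) * b)) := by
    rw [e]
    exact hd.smul hc
  exact ⟨tate hT h2 hb' hd', points_complete h2 hb' hd'⟩

section ideals

variable (R : Type) [CommRing R] [IsDomain R] [Algebra.FiniteType ℤ R]

/-- There are maximal ideals with large residue fields which do not contain a given element. -/
theorem exists_avoid (hR : ¬ IsField R) (h2 : (2 : R) ≠ 0) (B : ℕ) {s : R} (hs : s ≠ 0) :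
    ∃ m ∈ Zg R B, s ∉ m := by
  by_contra hcon
  push Not at hcon
  haveI := jacobson_int
  haveI : IsJacobsonRing R := isJacobsonRing_of_finiteType (A := ℤ)
  haveI : Infinite R := by
    by_contra h
    rw [not_infinite_iff_finite] at h
    exact hR (Finite.isField_of_domain R)
  obtain ⟨b, hb⟩ : ∃ b : R, ∏ q ∈ Finset.Ico 2 B, (b ^ q - b) ≠ 0 := by
    obtain ⟨P, hP⟩ : ∃ P : Polynomial R, P = ∏ q ∈ Finset.Ico 2 B,
      (Polynomial.X ^ q - Polynomial.X) := ⟨_, rfl⟩
    have hP0 : P ≠ 0 := by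
      rw [hP, Finset.prod_ne_zero_iff]
      intro q hq h0
      have hq2 := (Finset.mem_Ico.1 hq).1
      have h1 := congrArg (fun f : Polynomial R => f.coeff q) h0
      simp only [Polynomial.coeff_sub, Polynomial.coeff_X_pow_self, Polynomial.coeff_zero] at h1
      rw [Polynomial.coeff_X_of_ne_one (by omega), sub_zero] at h1
      exact one_ne_zero h1
    obtain ⟨b, hb⟩ := Infinite.exists_notMem_finset P.roots.toFinset
    refine ⟨b, fun h0 => hb ?_⟩
    rw [Multiset.mem_toFinset, Polynomial.mem_roots hP0, Polynomial.IsRoot.def, hP,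
      Polynomial.eval_prod]
    simp only [Polynomial.eval_sub, Polynomial.eval_pow, Polynomial.eval_X]
    exact h0
  obtain ⟨c, hc⟩ : ∃ c : R, c = 2 * (∏ q ∈ Finset.Ico 2 B, (b ^ q - b)) * s := ⟨_, rfl⟩
  have hc0 : c ≠ 0 := by
    rw [hc]
    exact mul_ne_zero (mul_ne_zero h2 hb) hs
  apply hc0
  have hall : ∀ m : Ideal R, m.IsMaximal → c ∈ m := by
    intro m hm
    haveI := hm
    haveI : Finite (R ⧸ m) := residue_finite R m
    by_cases h3 : (2 : R) ∈ m
    · rw [hc]
      exact m.mul_mem_right _ (m.mul_mem_right _ h3)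
    by_cases h4 : B ≤ Nat.card (R ⧸ m)
    · have h5 : m ∈ Zg R B := ⟨hm, inferInstance, h4, h3⟩
      rw [hc]
      exact m.mul_mem_left _ (hcon m h5)
    · rw [hc]
      refine m.mul_mem_right _ (m.mul_mem_left _ ?_)
      letI : Field (R ⧸ m) := Ideal.Quotient.field m
      letI := Fintype.ofFinite (R ⧸ m)
      have h5 : Nat.card (R ⧸ m) ∈ Finset.Ico 2 B := by
        rw [Finset.mem_Ico]
        refine ⟨?_, by omega⟩
        rw [Nat.card_eq_fintype_card]
        exact Fintype.one_lt_card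
      rw [← Finset.mul_prod_erase _ _ h5]
      refine m.mul_mem_right _ ?_
      rw [← Ideal.Quotient.eq, map_pow, Nat.card_eq_fintype_card, FiniteField.pow_card]
  have hJ : IsJacobsonRing R := inferInstance
  have hbot : (⊥ : Ideal R).jacobson = ⊥ := hJ.out Ideal.isRadical_bot
  have h6 : c ∈ (⊥ : Ideal R).jacobson := by
    rw [Ideal.jacobson, Ideal.mem_sInf]
    rintro m ⟨-, hm⟩
    exact hall m hm
  rw [hbot] at h6
  exact h6

theorem card_pow_of_mem {R : Type} [CommRing R] {m : Ideal R} [hm : m.IsMaximal] [Finite (R ⧸ m)]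
    {ℓ : ℕ} (hℓ : ℓ.Prime) (h : (ℓ : R) ∈ m) {y : Ideal R} (hy : (ℓ : R) ∈ y) :
    (Nat.card (R ⧸ m) : R) ∈ y := by
  letI : Field (R ⧸ m) := Ideal.Quotient.field m
  letI := Fintype.ofFinite (R ⧸ m)
  have h0 : ((ℓ : ℕ) : R ⧸ m) = 0 := by
    rw [← map_natCast (Ideal.Quotient.mk m), Ideal.Quotient.eq_zero_iff_mem]
    exact h
  haveI : CharP (R ⧸ m) ℓ := by
    haveI : Fact ℓ.Prime := ⟨hℓ⟩
    exact (CharP.charP_iff_prime_eq_zero hℓ).2 h0
  obtain ⟨n, -, hn⟩ := FiniteField.card (R ⧸ m) ℓ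
  rw [Nat.card_eq_fintype_card, hn]
  push_cast
  exact Ideal.pow_mem_of_mem y hy _ n.pos

/-- Two disjoint infinite sets of maximal ideals such that no prime number not zero in `R` is in an ideal
of the first and in an ideal of the second set. -/
theorem two_sets (hR : ¬ IsField R) (h2 : (2 : R) ≠ 0) (B : ℕ) :
    ∃ Z : Bool → Set (Ideal R), (∀ s, (Z s).Infinite) ∧ (∀ s, Z s ⊆ Zg R B) ∧
      ∀ p ∈ Z false, ∀ q ∈ Z true, ∀ ℓ : ℕ, ℓ.Prime → (ℓ : R) ≠ 0 → (ℓ : R) ∈ p → (ℓ : R) ∉ q := by
  by_cases hchar : ∃ p : ℕ, p.Prime ∧ (p : R) = 0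
  · -- positive characteristic
    obtain ⟨p, hp, hp0⟩ := hchar
    refine ⟨fun _ => Zg R B, fun _ => Zg_inf R hR h2 B, fun _ => subset_rfl, ?_⟩
    intro m hm q hq ℓ hℓ hℓ0 h1 h3
    have hne : ℓ ≠ p := by
      rintro rfl
      exact hℓ0 hp0
    have hcop : Nat.Coprime ℓ p := (Nat.coprime_primes hℓ hp).2 hne
    have h4 : (1 : R) ∈ m := by
      have h5 := Nat.isCoprime_iff_coprime.2 hcop
      obtain ⟨u, v, huv⟩ := h5
      have h6 : ((u * ℓ + v * p : ℤ) : R) = ((1 : ℤ) : R) := by rw [huv]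
      push_cast at h6
      rw [hp0, mul_zero, add_zero] at h6
      rw [← h6]
      exact m.mul_mem_left _ h1
    exact hm.1.ne_top ((Ideal.eq_top_iff_one m).2 h4)
  · have hcard : ∀ m ∈ Zg R B, (Nat.card (R ⧸ m) : R) ≠ 0 := by
      intro m hm h0
      haveI := hm.1
      haveI := hm.2.1
      letI : Field (R ⧸ m) := Ideal.Quotient.field m
      letI := Fintype.ofFinite (R ⧸ m)
      obtain ⟨ℓ, hℓ⟩ := CharP.exists (R ⧸ m)
      haveI := hℓ
      have hp : ℓ.Prime := by
        haveI : NeZero ℓ := ⟨CharP.char_ne_zero_of_finite (R ⧸ m) ℓ⟩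
        exact CharP.char_is_prime (R ⧸ m) ℓ
      obtain ⟨n, -, hn⟩ := FiniteField.card (R ⧸ m) ℓ
      rw [Nat.card_eq_fintype_card, hn] at h0
      push_cast at h0
      exact hchar ⟨ℓ, hp, pow_eq_zero_iff n.ne_zero |>.1 h0⟩
    obtain ⟨f, hf, hr⟩ := exists_seq_of_forall_finset_exists (fun m : Ideal R => m ∈ Zg R B)
      (fun x y => (Nat.card (R ⧸ x) : R) ∉ y) (by
        intro s hs
        obtain ⟨m, hm, hm'⟩ := exists_avoid R hR h2 B (s := ∏ x ∈ s, (Nat.card (R ⧸ x) : R))
          (Finset.prod_ne_zero_iff.2 fun x hx => hcard x (hs x hx))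
        refine ⟨m, hm, fun x hx h => hm' ?_⟩
        rw [← Finset.mul_prod_erase _ _ hx]
        exact m.mul_mem_right _ h)
    have hself : ∀ m ∈ Zg R B, (Nat.card (R ⧸ m) : R) ∈ m := by
      intro m hm
      haveI := hm.2.1
      rw [← Ideal.Quotient.eq_zero_iff_mem, map_natCast]
      letI := Fintype.ofFinite (R ⧸ m)
      rw [Nat.card_eq_fintype_card]
      exact Nat.cast_card_eq_zero _
    have hinj : Function.Injective f := by
      intro i j hij
      by_contra hne
      rcases lt_or_gt_of_ne hne with h | h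
      · apply hr i j h
        rw [← hij]
        exact hself _ (hf i)
      · apply hr j i h
        rw [hij]
        exact hself _ (hf j)
    refine ⟨fun s => Set.range fun n : ℕ => f (2 * n + cond s 1 0), fun s => ?_, ?_, ?_⟩
    · apply Set.infinite_range_of_injective
      intro i j hij
      have := hinj hij
      omega
    · rintro s _ ⟨n, rfl⟩
      exact hf _
    · rintro _ ⟨i, rfl⟩ _ ⟨j, rfl⟩ ℓ hℓ - h1 h3
      have hi := hf (2 * i + cond false 1 0)
      have hj := hf (2 * j + cond true 1 0)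
      haveI := hi.1
      haveI := hi.2.1
      haveI := hj.1
      haveI := hj.2.1
      have hne : 2 * i + cond false 1 0 ≠ 2 * j + cond true 1 0 := by
        simp only [cond_false, cond_true]
        omega
      rcases lt_or_gt_of_ne hne with h | h
      · exact hr _ _ h (card_pow_of_mem hℓ h1 h3)
      · exact hr _ _ h (card_pow_of_mem hℓ h3 h1)

end ideals

end Pool.Agent.K9h33.RD
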