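import Mathlib

/-!
Solutions of `φ w = c b + d` with `b`, `d` in given subsets of a vector space over a finite field.
-/

set_option autoImplicit false
set_option linter.all false

open scoped Classical

namespace Pool.Agent.K9h33.RD

section four

variable {F : Type} [Field F] [Fintype F] {n : ℕ}

theorem map_sum' (ψ : AddChar F ℂ) {ι : Type} (s : Finset ι) (f : ι → F) :
    ψ (∑ j ∈ s, f j) = ∏ j ∈ s, ψ (f j) := by
  induction s using Finset.induction_on with
  | empty => simp
  | insert a s ha ih =>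
    rw [Finset.sum_insert ha, Finset.prod_insert ha, AddChar.map_add_eq_mul, ih]

/-- Orthogonality. -/
theorem orth {ψ : AddChar F ℂ} (hψ : ψ.IsPrimitive) (v : Fin n → F) :
    ∑ l : Fin n → F, ψ (∑ j, l j * v j) = if v = 0 then ((Fintype.card F : ℂ)) ^ n else 0 := by
  have h1 : ∀ l : Fin n → F, ψ (∑ j, l j * v j) = ∏ j, ψ (l j * v j) := fun l => by
    rw [map_sum']
  rw [Finset.sum_congr rfl fun l _ => h1 l]
  rw [← Fintype.piFinset_univ, ← Finset.prod_univ_sum (fun _ : Fin n => (Finset.univ : Finset F))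
    (fun j x => ψ (x * v j))]
  have h2 : ∀ j, ∑ x : F, ψ (x * v j) = if v j = 0 then (Fintype.card F : ℂ) else 0 := by
    intro j
    have h3 := AddChar.sum_mulShift (v j) hψ
    rw [h3]
    split_ifs <;> simp
  rw [Finset.prod_congr rfl fun j _ => h2 j]
  by_cases hv : v = 0
  · subst hv
    simp
  · rw [if_neg hv]
    obtain ⟨j, hj⟩ := Function.ne_iff.1 hv
    exact Finset.prod_eq_zero (Finset.mem_univ j) (if_neg hj)

/-- Parseval. -/
theorem parseval {ψ : AddChar F ℂ} (hψ : ψ.IsPrimitive) (A : Finset (Fin n → F)) {c : F}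
    (hc : c ≠ 0) :
    ∑ l : Fin n → F, ‖∑ b ∈ A, ψ (c * ∑ j, l j * b j)‖ ^ 2 =
      (Fintype.card F : ℝ) ^ n * A.card := by
  have h1 : ∀ l : Fin n → F, ((‖∑ b ∈ A, ψ (c * ∑ j, l j * b j)‖ ^ 2 : ℝ) : ℂ) =
      ∑ b ∈ A, ∑ b' ∈ A, ψ (∑ j, l j * (c * (b j - b' j))) := by
    intro l
    rw [Complex.ofReal_pow, ← Complex.mul_conj', map_sum, Finset.sum_mul_sum]
    refine Finset.sum_congr rfl fun b _ => Finset.sum_congr rfl fun b' _ => ?_
    rw [← AddChar.map_neg_eq_conj, ← AddChar.map_add_eq_mul]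
    congr 1
    rw [← mul_neg, ← mul_add, ← sub_eq_add_neg, ← Finset.sum_sub_distrib, Finset.mul_sum]
    refine Finset.sum_congr rfl fun j _ => ?_
    ring
  have h2 : ((∑ l : Fin n → F, ‖∑ b ∈ A, ψ (c * ∑ j, l j * b j)‖ ^ 2 : ℝ) : ℂ) =
      (((Fintype.card F : ℝ) ^ n * A.card : ℝ) : ℂ) := by
    rw [Complex.ofReal_sum, Finset.sum_congr rfl fun l _ => h1 l, Finset.sum_comm]
    have h3 : ∀ b ∈ A, ∑ l : Fin n → F, ∑ b' ∈ A, ψ (∑ j, l j * (c * (b j - b' j))) =
        (Fintype.card F : ℂ) ^ n := by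
      intro b hb
      rw [Finset.sum_comm]
      have h4 : ∀ b' ∈ A, ∑ l : Fin n → F, ψ (∑ j, l j * (c * (b j - b' j))) =
          if b' = b then (Fintype.card F : ℂ) ^ n else 0 := by
        intro b' _
        rw [orth hψ (fun j => c * (b j - b' j))]
        refine if_congr ?_ rfl rfl
        constructor
        · intro h
          funext j
          have h5 := congrFun h j
          have h6 : c * (b j - b' j) = 0 := h5
          rcases mul_eq_zero.1 h6 with h7 | h7
          · exact absurd h7 hc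
          · exact (sub_eq_zero.1 h7).symm
        · rintro rfl
          funext j
          simp
      rw [Finset.sum_congr rfl h4, Finset.sum_ite_eq' A b, if_pos hb]
    rw [Finset.sum_congr rfl h3, Finset.sum_const, nsmul_eq_mul]
    push_cast
    ring
  exact_mod_cast h2

/-- **The count.** -/
theorem count {ψ : AddChar F ℂ} (hψ : ψ.IsPrimitive) {W : Type} [Fintype W]
    (φ : W → Fin n → F) {c : F} (hc : c ≠ 0) (A B : Finset (Fin n → F)) {M : ℝ}
    (hM0 : 0 ≤ M) (hM : ∀ l : Fin n → F, l ≠ 0 → ‖∑ w, ψ (∑ j, l j * φ w j)‖ ≤ M) :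
    (Fintype.card W : ℝ) * A.card * B.card ≤
      (Fintype.card F : ℝ) ^ n * ((Finset.univ.filter fun p : W × (Fin n → F) =>
        p.2 ∈ A ∧ (fun j => φ p.1 j - c * p.2 j) ∈ B).card : ℝ) +
      M * ((Fintype.card F : ℝ) ^ n) ^ 2 := by
  set Q : ℝ := (Fintype.card F : ℝ) ^ n with hQ
  set T : ℕ := (Finset.univ.filter fun p : W × (Fin n → F) =>
        p.2 ∈ A ∧ (fun j => φ p.1 j - c * p.2 j) ∈ B).card with hT
  let S : (Fin n → F) → ℂ := fun l => ∑ w, ψ (∑ j, l j * φ w j)
  let Ah : (Fin n → F) → ℂ := fun l => ∑ b ∈ A, ψ ((-c) * ∑ j, l j * b j)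
  let Bh : (Fin n → F) → ℂ := fun l => ∑ d ∈ B, ψ ((-1) * ∑ j, l j * d j)
  have hcardV : (Fintype.card (Fin n → F) : ℝ) = Q := by
    rw [Fintype.card_fun, Fintype.card_fin, hQ]
    push_cast
    rfl
  -- the identity
  have hid : (Q : ℂ) * (T : ℂ) = ∑ l : Fin n → F, S l * Ah l * Bh l := by
    have h1 : ∀ l : Fin n → F, S l * Ah l * Bh l =
        ∑ w, ∑ b ∈ A, ∑ d ∈ B, ψ (∑ j, l j * (φ w j - c * b j - d j)) := by
      intro l
      show (∑ w, ψ (∑ j, l j * φ w j)) * (∑ b ∈ A, ψ ((-c) * ∑ j, l j * b j)) *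
        (∑ d ∈ B, ψ ((-1) * ∑ j, l j * d j)) = _
      rw [Finset.sum_mul_sum, Finset.sum_mul]
      refine Finset.sum_congr rfl fun w _ => ?_
      rw [Finset.sum_mul_sum]
      refine Finset.sum_congr rfl fun b _ => Finset.sum_congr rfl fun d _ => ?_
      rw [← AddChar.map_add_eq_mul, ← AddChar.map_add_eq_mul]
      congr 1
      rw [Finset.mul_sum, Finset.mul_sum, ← Finset.sum_add_distrib, ← Finset.sum_add_distrib]
      refine Finset.sum_congr rfl fun j _ => ?_
      ring
    rw [Finset.sum_congr rfl fun l _ => h1 l, Finset.sum_comm]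
    have h2 : ∀ w : W, ∑ l : Fin n → F, ∑ b ∈ A, ∑ d ∈ B,
        ψ (∑ j, l j * (φ w j - c * b j - d j)) =
        ∑ b ∈ A, if (fun j => φ w j - c * b j) ∈ B then (Q : ℂ) else 0 := by
      intro w
      rw [Finset.sum_comm]
      refine Finset.sum_congr rfl fun b _ => ?_
      rw [Finset.sum_comm]
      have h3 : ∀ d ∈ B, ∑ l : Fin n → F, ψ (∑ j, l j * (φ w j - c * b j - d j)) =
          if (fun j => φ w j - c * b j) = d then (Q : ℂ) else 0 := by
        intro d _
        rw [orth hψ (fun j => φ w j - c * b j - d j)]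
        refine if_congr ?_ (by rw [hQ]; push_cast; rfl) rfl
        constructor
        · intro h
          funext j
          exact sub_eq_zero.1 (congrFun h j)
        · intro h
          funext j
          rw [← h]
          exact sub_self _
      rw [Finset.sum_congr rfl h3, Finset.sum_ite_eq B]
    rw [Finset.sum_congr rfl fun w _ => h2 w]
    have h4 : (T : ℂ) = ∑ w : W, ∑ b ∈ A, if (fun j => φ w j - c * b j) ∈ B then (1 : ℂ) else 0 := by
      rw [hT, Finset.card_filter]
      push_cast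
      rw [← Finset.univ_product_univ, Finset.sum_product]
      refine Finset.sum_congr rfl fun w _ => ?_
      rw [← Finset.sum_filter, ← Finset.sum_filter]
      refine Finset.sum_congr ?_ fun _ _ => rfl
      ext b
      simp only [Finset.mem_filter, Finset.mem_univ, true_and]
    rw [h4, Finset.mul_sum]
    refine Finset.sum_congr rfl fun w _ => ?_
    rw [Finset.mul_sum]
    refine Finset.sum_congr rfl fun b _ => ?_
    split_ifs <;> simp
  -- the main term
  have h0 : S 0 * Ah 0 * Bh 0 = (Fintype.card W : ℂ) * A.card * B.card := by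
    simp only [S, Ah, Bh, Pi.zero_apply, zero_mul, Finset.sum_const_zero, mul_zero,
      AddChar.map_zero_eq_one, Finset.sum_const, nsmul_eq_mul, mul_one, Finset.card_univ]
  have hsplit : ∑ l : Fin n → F, S l * Ah l * Bh l =
      S 0 * Ah 0 * Bh 0 + ∑ l ∈ Finset.univ.erase (0 : Fin n → F), S l * Ah l * Bh l :=
    (Finset.add_sum_erase _ _ (Finset.mem_univ _)).symm
  have hPA := parseval hψ A (c := -c) (neg_ne_zero.2 hc)
  have hPB := parseval hψ B (c := -1) (neg_ne_zero.2 one_ne_zero)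
  have hAQ : (A.card : ℝ) ≤ Q := by
    rw [← hcardV]
    exact_mod_cast Finset.card_le_univ A
  have hBQ : (B.card : ℝ) ≤ Q := by
    rw [← hcardV]
    exact_mod_cast Finset.card_le_univ B
  have hQ0 : 0 ≤ Q := by positivity
  · have herr : ‖∑ l ∈ Finset.univ.erase (0 : Fin n → F), S l * Ah l * Bh l‖ ≤ M * Q ^ 2 := by
      refine (norm_sum_le _ _).trans ?_
      have h1 : ∀ l ∈ Finset.univ.erase (0 : Fin n → F), ‖S l * Ah l * Bh l‖ ≤
          M * ((‖Ah l‖ ^ 2 + ‖Bh l‖ ^ 2) / 2) := by
        intro l hl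
        rw [norm_mul, norm_mul, mul_assoc]
        have h3 := hM l (Finset.ne_of_mem_erase hl)
        refine mul_le_mul h3 ?_ (by positivity) hM0
        nlinarith [sq_nonneg (‖Ah l‖ - ‖Bh l‖)]
      refine (Finset.sum_le_sum h1).trans ?_
      refine (Finset.sum_le_sum_of_subset_of_nonneg (Finset.erase_subset _ _) (fun l _ _ => by
        positivity)).trans ?_
      rw [← Finset.mul_sum, ← Finset.sum_div, Finset.sum_add_distrib]
      have e1 : ∑ l : Fin n → F, ‖Ah l‖ ^ 2 = Q * A.card := hPA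
      have e2 : ∑ l : Fin n → F, ‖Bh l‖ ^ 2 = Q * B.card := hPB
      rw [e1, e2]
      refine mul_le_mul_of_nonneg_left ?_ hM0
      nlinarith
    have hfin : (Fintype.card W : ℂ) * A.card * B.card = (Q : ℂ) * (T : ℂ) -
        ∑ l ∈ Finset.univ.erase (0 : Fin n → F), S l * Ah l * Bh l := by
      rw [hid, hsplit, h0]
      ring
    have hn := congrArg norm hfin
    have hn1 : ‖(Fintype.card W : ℂ) * A.card * B.card‖ =
        (Fintype.card W : ℝ) * A.card * B.card := by
      rw [norm_mul, norm_mul, Complex.norm_natCast, Complex.norm_natCast, Complex.norm_natCast]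
    rw [hn1] at hn
    rw [hn]
    refine (norm_sub_le _ _).trans ?_
    refine add_le_add (le_of_eq ?_) herr
    rw [norm_mul, Complex.norm_natCast, Complex.norm_real, Real.norm_of_nonneg hQ0]

end four

end Pool.Agent.K9h33.RD
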