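import Pool.Agent.K9h33.RD.Gs
import Pool.Agent.X243.Tate.Cnt

/-!
Exponential sums over the squares of polynomials.
-/

set_option autoImplicit false
set_option linter.all false

open Polynomial
open scoped Classical

namespace Pool.Agent.K9h33.RD

open Pool.Agent.Y160.T3

section hankel

variable {F : Type} [Field F]

/-- The linear functional with coefficients `l`. -/
noncomputable def L {n : ℕ} (l : Fin n → F) (p : F[X]) : F := ∑ j : Fin n, l j * p.coeff j

theorem L_add {n : ℕ} (l : Fin n → F) (p q : F[X]) : L l (p + q) = L l p + L l q := by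
  simp only [L, coeff_add, mul_add, Finset.sum_add_distrib]

theorem L_neg {n : ℕ} (l : Fin n → F) (p : F[X]) : L l (-p) = - L l p := by
  simp only [L, coeff_neg, mul_neg, Finset.sum_neg_distrib]

theorem L_sub {n : ℕ} (l : Fin n → F) (p q : F[X]) : L l (p - q) = L l p - L l q := by
  rw [sub_eq_add_neg, L_add, L_neg, sub_eq_add_neg]

theorem L_C_mul {n : ℕ} (l : Fin n → F) (c : F) (p : F[X]) : L l (C c * p) = c * L l p := by
  simp only [L, coeff_C_mul, Finset.mul_sum]
  refine Finset.sum_congr rfl fun j _ => ?_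
  ring

theorem L_sum {n : ℕ} (l : Fin n → F) {ι : Type} (s : Finset ι) (f : ι → F[X]) :
    L l (∑ i ∈ s, f i) = ∑ i ∈ s, L l (f i) := by
  induction s using Finset.induction_on with
  | empty => simp [L]
  | insert a s ha ih => rw [Finset.sum_insert ha, Finset.sum_insert ha, L_add, ih]

theorem L_X {n : ℕ} (l : Fin n → F) (j : Fin n) : L l (X ^ (j : ℕ)) = l j := by
  simp only [L, coeff_X_pow]
  rw [Finset.sum_eq_single j]
  · rw [if_pos rfl, mul_one]
  · intro i _ hi
    rw [if_neg (fun h => hi (Fin.ext h)), mul_zero]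
  · intro h
    exact absurd (Finset.mem_univ j) h

theorem bF_sub {r : ℕ} (u v : Fin r → F) : bF (u - v) = bF u - bF v := by
  simp only [bF, Pi.sub_apply, C_sub, sub_mul, Finset.sum_sub_distrib]

theorem bF_single {r : ℕ} (i : Fin r) (x : F) : bF (Pi.single i x) = C x * X ^ (i : ℕ) := by
  simp only [bF]
  rw [Finset.sum_eq_single i]
  · rw [Pi.single_eq_same]
  · intro j _ hj
    rw [Pi.single_eq_of_ne hj, C_0, zero_mul]
  · intro h
    exact absurd (Finset.mem_univ i) h

variable [Fintype F]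

/-- The radical is small. -/
theorem rad_card {r : ℕ} {l : Fin (2 * r + 1) → F} (hl : l ≠ 0) :
    (Finset.univ.filter fun u : Fin (r + 1) → F => ∀ m : Fin (r + 1),
      L l (bF u * X ^ (m : ℕ)) = 0).card * Fintype.card F ≤ Fintype.card F ^ (r + 1) := by
  obtain ⟨j0, hj0⟩ := Function.ne_iff.1 hl
  have hj0 : l j0 ≠ 0 := hj0
  obtain ⟨i0, hi0⟩ : ∃ i0 : Fin (r + 1), (i0 : ℕ) = min (j0 : ℕ) r := ⟨⟨min (j0 : ℕ) r, by omega⟩, rfl⟩
  obtain ⟨m0, hm0⟩ : ∃ m0 : Fin (r + 1), (m0 : ℕ) = (j0 : ℕ) - min (j0 : ℕ) r :=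
    ⟨⟨(j0 : ℕ) - min (j0 : ℕ) r, by have := j0.2; omega⟩, rfl⟩
  set U := Finset.univ.filter fun u : Fin (r + 1) → F => ∀ m : Fin (r + 1),
      L l (bF u * X ^ (m : ℕ)) = 0 with hU
  have h1 : (U ×ˢ (Finset.univ : Finset F)).card ≤
      (Finset.univ : Finset (Fin (r + 1) → F)).card := by
    refine Finset.card_le_card_of_injOn (fun p => p.1 + Pi.single i0 p.2)
      (fun _ _ => Finset.mem_coe.2 (Finset.mem_univ _)) ?_
    rintro ⟨u, x⟩ hu ⟨u', x'⟩ hu' h
    have hu1 := (Finset.mem_filter.1 (Finset.mem_product.1 (Finset.mem_coe.1 hu)).1).2 m0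
    have hu2 := (Finset.mem_filter.1 (Finset.mem_product.1 (Finset.mem_coe.1 hu')).1).2 m0
    have h3 : u + Pi.single i0 x = u' + Pi.single i0 x' := h
    have h4 : L l (bF (u + Pi.single i0 x) * X ^ (m0 : ℕ)) =
        L l (bF (u' + Pi.single i0 x') * X ^ (m0 : ℕ)) := by rw [h3]
    have e1 : ∀ y : F, L l (bF (Pi.single i0 y) * X ^ (m0 : ℕ)) = y * l j0 := by
      intro y
      rw [bF_single, mul_assoc, ← pow_add, hi0, hm0,
        show min (j0 : ℕ) r + ((j0 : ℕ) - min (j0 : ℕ) r) = j0 by omega, L_C_mul, L_X]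
    rw [bF_add, bF_add, add_mul, add_mul, L_add, L_add, hu1, hu2, e1, e1, zero_add, zero_add] at h4
    have h5 : x = x' := mul_right_cancel₀ hj0 h4
    subst h5
    have h6 : u = u' := add_right_cancel h3
    rw [h6]
  rw [Finset.card_product, Finset.card_univ, Finset.card_univ, Fintype.card_fun,
    Fintype.card_fin] at h1
  exact h1

/-- **The exponential sum over squares.** -/
theorem gauss (h2 : (2 : F) ≠ 0) {ψ : AddChar F ℂ} (hψ : ψ.IsPrimitive) {r : ℕ}
    {l : Fin (2 * r + 1) → F} (hl : l ≠ 0) :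
    ‖∑ a : Fin (r + 1) → F, ψ (L l ((bF a) ^ 2))‖ ^ 2 * (Fintype.card F : ℝ) ≤
      ((Fintype.card F : ℝ) ^ (r + 1)) ^ 2 := by
  set U := Finset.univ.filter fun u : Fin (r + 1) → F => ∀ m : Fin (r + 1),
      L l (bF u * X ^ (m : ℕ)) = 0 with hU
  have h1 : ((‖∑ a : Fin (r + 1) → F, ψ (L l ((bF a) ^ 2))‖ ^ 2 : ℝ) : ℂ) =
      (Fintype.card F : ℂ) ^ (r + 1) * (U.card : ℂ) := by
    rw [Complex.ofReal_pow, ← Complex.mul_conj', map_sum, Finset.sum_mul_sum, Finset.sum_comm]
    have e1 : ∀ a' a : Fin (r + 1) → F, ψ (L l ((bF a) ^ 2)) *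
        (starRingEnd ℂ) (ψ (L l ((bF a') ^ 2))) = ψ (L l (bF (a - a') * bF (a + a'))) := by
      intro a' a
      rw [← AddChar.map_neg_eq_conj, ← AddChar.map_add_eq_mul, ← sub_eq_add_neg, ← L_sub, bF_sub,
        bF_add]
      congr 2
      ring
    have e2 : ∀ a' : Fin (r + 1) → F, ∑ a : Fin (r + 1) → F, ψ (L l ((bF a) ^ 2)) *
        (starRingEnd ℂ) (ψ (L l ((bF a') ^ 2))) =
        ∑ u : Fin (r + 1) → F, ψ (L l (bF u * bF (u + 2 • a'))) := by
      intro a'
      rw [Finset.sum_congr rfl fun a _ => e1 a' a]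
      refine (Fintype.sum_equiv (Equiv.addRight a') _ _ fun u => ?_).symm
      show ψ (L l (bF u * bF (u + 2 • a'))) = ψ (L l (bF (u + a' - a') * bF (u + a' + a')))
      rw [add_sub_cancel_right, add_assoc, ← two_nsmul]
    rw [Finset.sum_congr rfl fun a' _ => e2 a', Finset.sum_comm]
    have e3 : ∀ u : Fin (r + 1) → F, ∑ a' : Fin (r + 1) → F, ψ (L l (bF u * bF (u + 2 • a'))) =
        if u ∈ U then (Fintype.card F : ℂ) ^ (r + 1) else 0 := by
      intro u
      have hbij : Function.Bijective (fun a' : Fin (r + 1) → F => u + 2 • a') := by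
        rw [← Finite.injective_iff_bijective]
        intro a a' h
        have h3 : u + 2 • a = u + 2 • a' := h
        have h4 := add_left_cancel h3
        funext j
        have h5 := congrFun h4 j
        simp only [Pi.smul_apply, nsmul_eq_mul] at h5
        have h6 : ((2 : ℕ) : F) ≠ 0 := by exact_mod_cast h2
        exact mul_left_cancel₀ h6 h5
      rw [hbij.sum_comp (fun v => ψ (L l (bF u * bF v)))]
      have e4 : ∀ v : Fin (r + 1) → F, L l (bF u * bF v) =
          ∑ m, v m * L l (bF u * X ^ (m : ℕ)) := by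
        intro v
        rw [show bF v = ∑ m, C (v m) * X ^ (m : ℕ) from rfl, Finset.mul_sum, L_sum]
        refine Finset.sum_congr rfl fun m _ => ?_
        rw [← L_C_mul]
        congr 1
        ring
      rw [Finset.sum_congr rfl fun v _ => by rw [e4 v],
        orth hψ (fun m : Fin (r + 1) => L l (bF u * X ^ (m : ℕ)))]
      refine if_congr ?_ rfl rfl
      rw [hU, Finset.mem_filter]
      constructor
      · intro h
        exact ⟨Finset.mem_univ _, fun m => congrFun h m⟩
      · intro h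
        funext m
        exact h.2 m
    rw [Finset.sum_congr rfl fun u _ => e3 u, ← Finset.sum_filter, Finset.sum_const, nsmul_eq_mul,
      Finset.filter_mem_eq_inter, Finset.univ_inter]
    ring
  have h3 : ‖∑ a : Fin (r + 1) → F, ψ (L l ((bF a) ^ 2))‖ ^ 2 =
      (Fintype.card F : ℝ) ^ (r + 1) * (U.card : ℝ) := by exact_mod_cast h1
  rw [h3, pow_two ((Fintype.card F : ℝ) ^ (r + 1)), mul_assoc]
  refine mul_le_mul_of_nonneg_left ?_ (by positivity)
  exact_mod_cast rad_card hl

end hankel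

end Pool.Agent.K9h33.RD
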