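import Pool.Agent.K9h33.RD.Hk
import Pool.Agent.K9h33.RD.Cr

/-!
The number of the pairs `(a, b)` over a finite field such that `b` and `a² - 4 b` are nonsquare constants
times products of two irreducible polynomials of given odd degrees.
-/

set_option autoImplicit false
set_option linter.all false

open Polynomial
open scoped Classical

namespace Pool.Agent.K9h33.RD

open Pool.Agent.Y160.T3 Pool.Agent.X243.Tate

/-- `p` is a nonsquare constant times a product of two monic irreducible polynomials of degrees `e`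
and `f`. -/
def PairDeg {R : Type} [CommRing R] (e f : ℕ) (p : R[X]) : Prop :=
  ∃ (u : R) (p1 p2 : R[X]), ¬ IsSquare u ∧ p1.Monic ∧ p2.Monic ∧ Irreducible p1 ∧ Irreducible p2 ∧
    p1.natDegree = e ∧ p2.natDegree = f ∧ p = C u * (p1 * p2)

theorem PairDeg.oddPair {F : Type} [Field F] [Finite F] {e f : ℕ} {p : F[X]} (h : PairDeg e f p)
    (he : Odd e) (hf : Odd f) (hef : e ≠ f) : OddPair p := by
  obtain ⟨u, p1, p2, hu, m1, m2, i1, i2, d1, d2, rfl⟩ := h
  refine ⟨u, p1, p2, hu, m1, m2, i1, i2, PerfectField.separable_of_irreducible i1,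
    PerfectField.separable_of_irreducible i2, by rw [d1]; exact he, by rw [d2]; exact hf, ?_, rfl⟩
  rintro rfl
  exact hef (d1.symm.trans d2)

section count

variable {F : Type} [Field F] [Fintype F]

theorem bF_nd {r : ℕ} (y : Fin (r + 1) → F) : (bF y).natDegree ≤ r := by
  rw [natDegree_le_iff_coeff_eq_zero]
  intro N hN
  exact coeff_eq_zero_of_degree_lt ((bF_deg y).trans_le (by exact_mod_cast hN))

theorem nonsq_card (h2 : (2 : F) ≠ 0) :
    Fintype.card F ≤ 4 * Fintype.card {u : F // ¬ IsSquare u} := by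
  have hchar : ringChar F ≠ 2 := by
    intro h
    apply h2
    have h3 := ringChar.Nat.cast_ringChar (R := F)
    rw [h] at h3
    exact_mod_cast h3
  obtain ⟨ν, hν⟩ := FiniteField.exists_nonsquare hchar
  have hν0 : ν ≠ 0 := by
    rintro rfl
    exact hν IsSquare.zero
  have hmul : ∀ u : F, u ≠ 0 → IsSquare u → ¬ IsSquare (ν * u) := by
    rintro u hu ⟨s, rfl⟩ ⟨t, ht⟩
    have hs : s ≠ 0 := by
      rintro rfl
      exact hu (mul_zero 0)
    apply hν
    refine ⟨t / s, ?_⟩
    rw [div_mul_div_comm, eq_div_iff (mul_ne_zero hs hs), ht]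
  let Φ : Fˣ → {u : F // ¬ IsSquare u} × Bool := fun u =>
    if h : IsSquare (u : F) then (⟨ν * u, hmul u u.ne_zero h⟩, true) else (⟨u, h⟩, false)
  have hΦ : Function.Injective Φ := by
    intro u u' h
    simp only [Φ] at h
    split_ifs at h with h1 h3 h3
    · have h4 := congrArg (fun x => (x.1 : F)) h
      exact Units.ext (mul_left_cancel₀ hν0 h4)
    · exact absurd (congrArg Prod.snd h) (by simp)
    · exact absurd (congrArg Prod.snd h) (by simp)
    · have h4 := congrArg (fun x => (x.1 : F)) h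
      exact Units.ext h4
  have h3 := Fintype.card_le_of_injective Φ hΦ
  rw [Fintype.card_prod, Fintype.card_bool] at h3
  have h4 := two_le_units (F := F) Fintype.one_lt_card
  omega

theorem ps_card (h2 : (2 : F) ≠ 0) {N e f : ℕ} (he : 0 < e) (hf : 0 < f) (hne : e ≠ f)
    (hef : e + f = N) (hq : 2 * N + 2 ≤ Fintype.card F) :
    Fintype.card F ^ (N + 1) ≤
      16 * e * f * (Finset.univ.filter fun y : Fin (N + 1) → F => PairDeg e f (bF y)).card := by
  let Φ : {u : F // ¬ IsSquare u} × {a : Fin e → F // GoodP 1 (mF a)} ×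
      {a : Fin f → F // GoodP 1 (mF a)} → (Fin (N + 1) → F) :=
    fun x j => (C (x.1 : F) * (mF x.2.1.1 * mF x.2.2.1)).coeff j
  have hu0 : ∀ u : {u : F // ¬ IsSquare u}, (u : F) ≠ 0 := by
    rintro ⟨u, hu⟩ h
    apply hu
    have h3 : u = 0 := h
    rw [h3]
    exact IsSquare.zero
  have hb : ∀ x, bF (Φ x) = C (x.1 : F) * (mF x.2.1.1 * mF x.2.2.1) := by
    intro x
    apply bF_coeffs
    refine (natDegree_C_mul_le _ _).trans ?_
    rw [(mF_monic _).natDegree_mul (mF_monic _), mF_natDegree, mF_natDegree, hef]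
  have hinj : Function.Injective Φ := by
    rintro ⟨u, a, b⟩ ⟨u', a', b'⟩ h
    have h1 := hb (u, a, b)
    rw [h, hb (u', a', b')] at h1
    obtain ⟨hu, h3⟩ := smul_inj (u := Units.mk0 _ (hu0 u')) (u' := Units.mk0 _ (hu0 u))
      ((mF_monic _).mul (mF_monic _)) ((mF_monic _).mul (mF_monic _)) h1
    have hu' : u = u' := Subtype.ext (congrArg Units.val hu).symm
    have h3' : mF a'.1 * mF b'.1 = mF a.1 * mF b.1 := h3
    have ia := a.2.1
    have ib := b.2.1
    have ia' := a'.2.1
    have ib' := b'.2.1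
    have h4 : mF a.1 ∣ mF a'.1 * mF b'.1 := ⟨_, h3'⟩
    have h5 : mF a'.1 = mF a.1 := by
      rcases ia.prime.dvd_or_dvd h4 with h6 | h6
      · exact (eq_of_monic_of_associated (mF_monic _) (mF_monic _)
          (ia.associated_of_dvd ia' h6)).symm
      · exfalso
        have h7 := eq_of_monic_of_associated (mF_monic _) (mF_monic _)
          (ia.associated_of_dvd ib' h6)
        have h8 := congrArg natDegree h7
        rw [mF_natDegree, mF_natDegree] at h8
        exact hne h8
    have h6 : mF b'.1 = mF b.1 := by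
      rw [h5] at h3'
      exact mul_left_cancel₀ (mF_monic _).ne_zero h3'
    exact Prod.ext hu' (Prod.ext (Subtype.ext (mF_inj h5).symm) (Subtype.ext (mF_inj h6).symm))
  have hmem : ∀ x, Φ x ∈ (Finset.univ.filter fun y : Fin (N + 1) → F => PairDeg e f (bF y)) := by
    rintro ⟨u, a, b⟩
    rw [Finset.mem_filter]
    refine ⟨Finset.mem_univ _, ?_⟩
    rw [hb]
    exact ⟨u, _, _, u.2, mF_monic _, mF_monic _, a.2.1, b.2.1, mF_natDegree _, mF_natDegree _, rfl⟩
  have h1 : Fintype.card ({u : F // ¬ IsSquare u} × {a : Fin e → F // GoodP 1 (mF a)} ×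
      {a : Fin f → F // GoodP 1 (mF a)}) ≤
      (Finset.univ.filter fun y : Fin (N + 1) → F => PairDeg e f (bF y)).card := by
    rw [← Finset.card_univ]
    exact Finset.card_le_card_of_injOn Φ (fun x _ => Finset.mem_coe.2 (hmem x))
      (fun x _ y _ h => hinj h)
  rw [Fintype.card_prod, Fintype.card_prod] at h1
  have h3 := nonsq_card h2
  have h4 := irr_card (F := F) he (by omega)
  have h5 := irr_card (F := F) hf (by omega)
  calc Fintype.card F ^ (N + 1) = Fintype.card F * (Fintype.card F ^ e * Fintype.card F ^ f) := by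
        rw [← hef]; ring
    _ ≤ (4 * Fintype.card {u : F // ¬ IsSquare u}) *
        ((2 * e * Fintype.card {a : Fin e → F // GoodP 1 (mF a)}) *
          (2 * f * Fintype.card {a : Fin f → F // GoodP 1 (mF a)})) :=
        Nat.mul_le_mul h3 (Nat.mul_le_mul h4 h5)
    _ = 16 * e * f * (Fintype.card {u : F // ¬ IsSquare u} *
        (Fintype.card {a : Fin e → F // GoodP 1 (mF a)} *
          Fintype.card {a : Fin f → F // GoodP 1 (mF a)})) := by ring
    _ ≤ _ := Nat.mul_le_mul_left _ h1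

/-- The constant. -/
def KK (r : ℕ) : ℕ := 768 * (2 * r - 1) * (2 * r - 3)

theorem KK_pos {r : ℕ} (hr : 2 ≤ r) : 0 < KK r := by
  unfold KK
  have h1 : 0 < 2 * r - 1 := by omega
  have h2 : 0 < 2 * r - 3 := by omega
  positivity

/-- The good pairs. -/
def GR (r : ℕ) (R : Type) [CommRing R] : Set (Fin (r + 1) ⊕ Fin (2 * r + 1) → R) :=
  {y | PairDeg 1 (2 * r - 1) (bF (y ∘ Sum.inr)) ∧
    PairDeg 3 (2 * r - 3) ((bF (y ∘ Sum.inl)) ^ 2 - 4 * bF (y ∘ Sum.inr))}

/-- **Positive proportion.** -/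
theorem GR_card (h2 : (2 : F) ≠ 0) {r : ℕ} (hr : 4 ≤ r) (hq : 4 * KK r ^ 2 ≤ Fintype.card F) :
    (Fintype.card F : ℝ) ^ (3 * r + 2) ≤ 2 * (KK r : ℝ) * ((GR r F).ncard : ℝ) := by
  have hK : 0 < KK r := KK_pos (by omega)
  have hKr : 768 * (2 * r - 1) ≤ KK r := by
    unfold KK
    exact Nat.le_mul_of_pos_right _ (by omega)
  have hq2 : 2 * (2 * r) + 2 ≤ Fintype.card F := by
    refine le_trans ?_ hq
    have h3 : KK r ≤ KK r ^ 2 := Nat.le_self_pow two_ne_zero _
    omega
  have hA := ps_card (F := F) h2 (N := 2 * r) (e := 1) (f := 2 * r - 1) one_pos (by omega) (by omega)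
    (by omega) hq2
  have hB := ps_card (F := F) h2 (N := 2 * r) (e := 3) (f := 2 * r - 3) (by omega) (by omega)
    (by omega) (by omega) hq2
  set A := Finset.univ.filter fun y : Fin (2 * r + 1) → F => PairDeg 1 (2 * r - 1) (bF y) with hAd
  set B := Finset.univ.filter fun y : Fin (2 * r + 1) → F => PairDeg 3 (2 * r - 3) (bF y) with hBd
  set q : ℝ := (Fintype.card F : ℝ) with hqd
  have hq0 : 0 < q := by
    have := Fintype.card_pos (α := F)
    rw [hqd]
    exact_mod_cast this
  have hq1 : (4 * (KK r : ℝ) ^ 2) ≤ q := by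
    rw [hqd]
    exact_mod_cast hq
  have hKR : (0 : ℝ) < KK r := by exact_mod_cast hK
  have hψ := AddChar.FiniteField.primitiveChar_to_Complex_isPrimitive F
  set ψ := AddChar.FiniteField.primitiveChar_to_Complex F with hψd
  have hsq : Real.sqrt q ^ 2 = q := Real.sq_sqrt hq0.le
  have hs0 : 0 < Real.sqrt q := Real.sqrt_pos.2 hq0
  have hs2 : 2 * (KK r : ℝ) ≤ Real.sqrt q := by
    apply Real.le_sqrt_of_sq_le
    nlinarith
  have h4 : (4 : F) ≠ 0 := by
    rw [show (4 : F) = 2 * 2 by norm_num]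
    exact mul_ne_zero h2 h2
  have hcnt := count hψ (W := Fin (r + 1) → F)
    (fun a j => ((bF a) ^ 2).coeff (j : ℕ)) h4 A B (M := q ^ (r + 1) / Real.sqrt q) (by positivity)
    (by
      intro l hl
      have hg := gauss h2 hψ hl
      rw [le_div_iff₀ hs0]
      have h5 : (‖∑ a : Fin (r + 1) → F, ψ (L l ((bF a) ^ 2))‖ * Real.sqrt q) ^ 2 ≤
          (q ^ (r + 1)) ^ 2 := by
        rw [mul_pow, hsq]
        exact hg
      exact (pow_le_pow_iff_left₀ (by positivity) (by positivity) two_ne_zero).1 h5)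
  -- the count
  set T := Finset.univ.filter fun p : (Fin (r + 1) → F) × (Fin (2 * r + 1) → F) =>
        p.2 ∈ A ∧ (fun j : Fin (2 * r + 1) => ((bF p.1) ^ 2).coeff (j : ℕ) - 4 * p.2 j) ∈ B with hTd
  have hT : (T.card : ℝ) ≤ ((GR r F).ncard : ℝ) := by
    have h5 : T.card ≤ (GR r F).toFinite.toFinset.card := by
      refine Finset.card_le_card_of_injOn (fun p => Sum.elim p.1 p.2) ?_ ?_
      · intro p hp
        rw [Finset.mem_coe, hTd, Finset.mem_filter, hAd, hBd, Finset.mem_filter,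
          Finset.mem_filter] at hp
        obtain ⟨-, ⟨-, h6⟩, -, h7⟩ := hp
        rw [Finset.mem_coe, Set.Finite.mem_toFinset]
        refine ⟨h6, ?_⟩
        have e : bF (fun j : Fin (2 * r + 1) => ((bF p.1) ^ 2).coeff (j : ℕ) - 4 * p.2 j) =
            (bF p.1) ^ 2 - 4 * bF p.2 := by
          have e1 : (fun j : Fin (2 * r + 1) => ((bF p.1) ^ 2).coeff (j : ℕ) - 4 * p.2 j) =
              (fun j : Fin (2 * r + 1) => ((bF p.1) ^ 2 - 4 * bF p.2).coeff (j : ℕ)) := by
            funext j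
            rw [coeff_sub]
            have e4 : (4 : F[X]) = C 4 := by rw [map_ofNat]
            rw [e4, coeff_C_mul, bF_coeff]
          rw [e1]
          apply bF_coeffs
          refine (natDegree_sub_le _ _).trans (max_le ?_ ?_)
          · refine natDegree_pow_le.trans ?_
            have h8 := bF_nd p.1
            omega
          · have e4 : (4 : F[X]) = C 4 := by rw [map_ofNat]
            rw [e4]
            exact (natDegree_C_mul_le _ _).trans (bF_nd p.2)
        rw [e] at h7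
        exact h7
      · intro p _ p' _ h
        have h6 : Sum.elim p.1 p.2 = Sum.elim p'.1 p'.2 := h
        refine Prod.ext (funext fun j => congrFun h6 (Sum.inl j))
          (funext fun j => congrFun h6 (Sum.inr j))
    rw [Set.ncard_eq_toFinset_card _ (GR r F).toFinite]
    exact_mod_cast h5
  have hW : (Fintype.card (Fin (r + 1) → F) : ℝ) = q ^ (r + 1) := by
    rw [Fintype.card_fun, Fintype.card_fin, hqd]
    push_cast
    rfl
  rw [hW] at hcnt
  obtain ⟨Q, hQ⟩ : ∃ Q : ℝ, Q = q ^ (2 * r + 1) := ⟨_, rfl⟩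
  obtain ⟨P, hP⟩ : ∃ P : ℝ, P = q ^ (r + 1) := ⟨_, rfl⟩
  rw [← hQ, ← hP] at hcnt
  have hQ0 : 0 < Q := by rw [hQ]; positivity
  have hP0 : 0 < P := by rw [hP]; positivity
  have hA' : Q ≤ 16 * ((2 * r - 1 : ℕ) : ℝ) * A.card := by
    have h5 : (Fintype.card F : ℝ) ^ (2 * r + 1) ≤ 16 * ((1 : ℕ) : ℝ) * ((2 * r - 1 : ℕ) : ℝ) *
        (A.card : ℝ) := by exact_mod_cast hA
    rw [hQ, hqd]
    simpa using h5
  have hB' : Q ≤ 48 * ((2 * r - 3 : ℕ) : ℝ) * B.card := by
    have h5 : (Fintype.card F : ℝ) ^ (2 * r + 1) ≤ 16 * ((3 : ℕ) : ℝ) * ((2 * r - 3 : ℕ) : ℝ) *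
        (B.card : ℝ) := by exact_mod_cast hB
    rw [hQ, hqd]
    refine h5.trans (le_of_eq ?_)
    push_cast
    ring
  have hAB : Q ^ 2 ≤ (KK r : ℝ) * ((A.card : ℝ) * B.card) := by
    have h5 := mul_le_mul hA' hB' hQ0.le (hQ0.le.trans hA')
    have h6 : (KK r : ℝ) = 768 * ((2 * r - 1 : ℕ) : ℝ) * ((2 * r - 3 : ℕ) : ℝ) := by
      unfold KK
      push_cast
      ring
    rw [pow_two, h6]
    refine h5.trans (le_of_eq ?_)
    ring
  have hPs : P / Real.sqrt q ≤ P / (2 * (KK r : ℝ)) :=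
    div_le_div_of_nonneg_left hP0.le (by positivity) hs2
  have hPK : P / (2 * (KK r : ℝ)) * (2 * (KK r : ℝ)) = P := div_mul_cancel₀ _ (by positivity)
  have h7 : P * A.card * B.card ≤ Q * T.card + P / (2 * (KK r : ℝ)) * Q ^ 2 :=
    hcnt.trans (add_le_add_right (mul_le_mul_of_nonneg_right hPs (by positivity)) _)
  have h8 : P * Q ^ 2 ≤ 2 * (KK r : ℝ) * (Q * T.card) := by
    have h9 : P * Q ^ 2 ≤ (KK r : ℝ) * (P * A.card * B.card) := by
      have := mul_le_mul_of_nonneg_left hAB hP0.le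
      refine this.trans (le_of_eq ?_)
      ring
    have h10 := mul_le_mul_of_nonneg_left h7 (by positivity : (0 : ℝ) ≤ 2 * (KK r : ℝ))
    have h11 : 2 * (KK r : ℝ) * (P / (2 * (KK r : ℝ)) * Q ^ 2) = P * Q ^ 2 := by
      rw [← mul_assoc, mul_comm (2 * (KK r : ℝ)), hPK]
    rw [mul_add, h11] at h10
    linarith
  have h12 : P * Q ≤ 2 * (KK r : ℝ) * T.card := by
    have h13 : Q * (P * Q) ≤ Q * (2 * (KK r : ℝ) * T.card) := by
      refine (le_of_eq ?_).trans (h8.trans (le_of_eq ?_)) <;> ring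
    exact le_of_mul_le_mul_left h13 hQ0
  have h14 : q ^ (3 * r + 2) = P * Q := by
    rw [hP, hQ, ← pow_add]
    congr 1
    ring
  rw [h14]
  exact h12.trans (mul_le_mul_of_nonneg_left hT (by positivity))

end count

end Pool.Agent.K9h33.RD
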